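import Pool.Graph.R_pool_sql_team_seeded_3997aac3.Q25.PLP.Top

set_option autoImplicit false

/-! The geometry of a finite set of points in an affine space of any dimension over any division
ring (adapted from the earlier run's file for Euclidean 3-space). -/

open Finset Pool.Agent.Helper123.PLP

namespace Pool.Agent.KS6_36.PLP

variable {k V P : Type*} [DivisionRing k] [AddCommGroup V] [Module k V] [AddTorsor V P]

/-- a line is spanned by any two points of it -/
theorem line_eq {a b x y : P} (hab : a ≠ b) (hx : x ∈ affineSpan k ({a, b} : Set P))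
    (hy : y ∈ affineSpan k ({a, b} : Set P)) (hxy : x ≠ y) :
    affineSpan k ({a, b} : Set P) = affineSpan k ({x, y} : Set P) := by
  have hc := collinear_insert_insert_of_mem_affineSpan_pair hx hy
  rw [hc.affineSpan_eq_of_ne (p₁ := x) (p₂ := y) (by simp) (by simp) hxy,
    hc.affineSpan_eq_of_ne (p₁ := a) (p₂ := b) (by simp) (by simp) hab]

theorem range3 (a b c : P) : Set.range ![a, b, c] = ({a, b, c} : Set P) := by
  ext x
  simp [eq_comm]
  tauto

/-- a plane is spanned by any three noncollinear points of it -/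
theorem plane_eq {a b c x y z : P} (habc : ¬ Collinear k ({a, b, c} : Set P))
    (hx : x ∈ affineSpan k ({a, b, c} : Set P)) (hy : y ∈ affineSpan k ({a, b, c} : Set P))
    (hz : z ∈ affineSpan k ({a, b, c} : Set P)) (hxyz : ¬ Collinear k ({x, y, z} : Set P)) :
    affineSpan k ({a, b, c} : Set P) = affineSpan k ({x, y, z} : Set P) := by
  have h1 := affineIndependent_iff_not_collinear_set.2 habc
  have h2 := affineIndependent_iff_not_collinear_set.2 hxyz
  have h3 : Module.finrank k (affineSpan k ({a, b, c} : Set P)).direction = 2 := by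
    rw [direction_affineSpan, ← range3]
    exact h1.finrank_vectorSpan (by simp)
  have h4 := h2.affineSpan_eq_of_le_of_card_eq_finrank_add_one
    (sp := affineSpan k ({a, b, c} : Set P)) (by
      rw [affineSpan_le, range3]
      rintro w (rfl | rfl | rfl)
      · exact hx
      · exact hy
      · exact hz) (by rw [h3]; simp)
  rw [← h4, range3]

section

variable {n : ℕ} (p : Fin n → P)

open Classical in
/-- the trace of a subspace -/
noncomputable def tr (A : AffineSubspace k P) : Finset (Fin n) := univ.filter (fun i => p i ∈ A)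

theorem mem_tr {A : AffineSubspace k P} {i : Fin n} : i ∈ tr p A ↔ p i ∈ A := by
  unfold tr
  simp

variable (k) in
/-- the lines -/
def LL : Set (AffineSubspace k P) :=
  {L | ∃ i j : Fin n, p i ≠ p j ∧ L = affineSpan k ({p i, p j} : Set P)}

variable (k) in
/-- the planes -/
def HH : Set (AffineSubspace k P) :=
  {Q | ∃ i j m : Fin n, ¬ Collinear k ({p i, p j, p m} : Set P) ∧
    Q = affineSpan k ({p i, p j, p m} : Set P)}

variable (k) in
/-- the subspaces spanned by points -/
def GG : Set (AffineSubspace k P) := {A | ∃ T : Set (Fin n), A = affineSpan k (p '' T)}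

theorem tr_inj : Set.InjOn (tr p) (GG k p) := by
  have key : ∀ A ∈ GG k p, ∀ B : AffineSubspace k P, tr p A = tr p B → A ≤ B := by
    rintro A ⟨T, rfl⟩ B h
    rw [affineSpan_le]
    rintro _ ⟨i, hi, rfl⟩
    have h1 : i ∈ tr p (affineSpan k (p '' T)) := by
      rw [mem_tr]
      exact subset_affineSpan k _ ⟨i, hi, rfl⟩
    rw [h, mem_tr] at h1
    exact h1
  intro A hA B hB h
  exact le_antisymm (key A hA B h) (key B hB A h.symm)

theorem LL_sub : LL k p ⊆ GG k p := by
  rintro _ ⟨i, j, -, rfl⟩
  refine ⟨{i, j}, ?_⟩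
  rw [Set.image_pair]

theorem HH_sub : HH k p ⊆ GG k p := by
  rintro _ ⟨i, j, m, -, rfl⟩
  refine ⟨{i, j, m}, ?_⟩
  rw [Set.image_insert_eq, Set.image_pair]

theorem ne_of_nc {a b c : P} (h : ¬ Collinear k ({a, b, c} : Set P)) : a ≠ b := by
  rintro rfl
  apply h
  rw [Set.insert_eq_of_mem (by simp)]
  exact collinear_pair k a c

theorem nc_iff {a b c : P} (hab : a ≠ b) :
    c ∉ affineSpan k ({a, b} : Set P) ↔ ¬ Collinear k ({a, b, c} : Set P) := by
  constructor
  · intro h1 h2
    exact h1 (h2.mem_affineSpan_of_mem_of_ne (by simp) (by simp) (by simp) hab)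
  · intro h1 h2
    apply h1
    have h3 := collinear_insert_of_mem_affineSpan_pair h2
    have h4 : ({a, b, c} : Set P) = {c, a, b} := by
      ext w
      simp only [Set.mem_insert_iff, Set.mem_singleton_iff]
      tauto
    rw [h4]
    exact h3

/-- the geometry -/
noncomputable def geo (hp : Function.Injective p) : Geo (Fin n) where
  L := (Set.toFinite (tr p '' LL k p)).toFinset
  H := (Set.toFinite (tr p '' HH k p)).toFinset
  two_le := by
    intro l hl
    rw [Set.Finite.mem_toFinset] at hl
    obtain ⟨_, ⟨i, j, hij, rfl⟩, rfl⟩ := hl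
    have h1 : ({i, j} : Finset (Fin n)) ⊆ tr p (affineSpan k ({p i, p j} : Set P)) := by
      intro u hu
      rw [mem_tr]
      rw [Finset.mem_insert, Finset.mem_singleton] at hu
      rcases hu with rfl | rfl
      · exact left_mem_affineSpan_pair k _ _
      · exact right_mem_affineSpan_pair k _ _
    have h2 := Finset.card_le_card h1
    rw [Finset.card_pair (fun h => hij (congrArg p h))] at h2
    exact h2
  ex_line := by
    intro x y hxy
    refine ⟨tr p (affineSpan k ({p x, p y} : Set P)), ?_, ?_, ?_⟩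
    · rw [Set.Finite.mem_toFinset]
      exact ⟨_, ⟨x, y, fun h => hxy (hp h), rfl⟩, rfl⟩
    · rw [mem_tr]
      exact left_mem_affineSpan_pair k _ _
    · rw [mem_tr]
      exact right_mem_affineSpan_pair k _ _
  uniq_line := by
    intro l hl l' hl' x y hxy h1 h2 h3 h4
    rw [Set.Finite.mem_toFinset] at hl hl'
    obtain ⟨_, ⟨i, j, hij, rfl⟩, rfl⟩ := hl
    obtain ⟨_, ⟨i', j', hij', rfl⟩, rfl⟩ := hl'
    rw [mem_tr] at h1 h2 h3 h4
    have hxy' : p x ≠ p y := fun h => hxy (hp h)
    rw [line_eq hij h1 h2 hxy', line_eq hij' h3 h4 hxy']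
  ex_plane := by
    intro l hl x hx
    rw [Set.Finite.mem_toFinset] at hl
    obtain ⟨_, ⟨i, j, hij, rfl⟩, rfl⟩ := hl
    rw [mem_tr, nc_iff hij] at hx
    refine ⟨tr p (affineSpan k ({p i, p j, p x} : Set P)), ?_, ?_, ?_⟩
    · rw [Set.Finite.mem_toFinset]
      exact ⟨_, ⟨i, j, x, hx, rfl⟩, rfl⟩
    · intro u hu
      rw [mem_tr] at hu ⊢
      exact affineSpan_mono k (by
        rintro w (rfl | rfl)
        · simp
        · simp) hu
    · rw [mem_tr]
      exact subset_affineSpan k _ (by simp)
  uniq_plane := by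
    intro l hl x hx h hh h' hh' h1 h2 h3 h4
    rw [Set.Finite.mem_toFinset] at hl hh hh'
    obtain ⟨_, ⟨i, j, hij, rfl⟩, rfl⟩ := hl
    obtain ⟨_, ⟨a, b, c, habc, rfl⟩, rfl⟩ := hh
    obtain ⟨_, ⟨a', b', c', habc', rfl⟩, rfl⟩ := hh'
    rw [mem_tr, nc_iff hij] at hx
    have hi : i ∈ tr p (affineSpan k ({p i, p j} : Set P)) := by
      rw [mem_tr]
      exact left_mem_affineSpan_pair k _ _
    have hj : j ∈ tr p (affineSpan k ({p i, p j} : Set P)) := by
      rw [mem_tr]
      exact right_mem_affineSpan_pair k _ _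
    have e1 := (mem_tr p).1 (h1 hi)
    have e2 := (mem_tr p).1 (h1 hj)
    have e3 := (mem_tr p).1 h2
    have f1 := (mem_tr p).1 (h3 hi)
    have f2 := (mem_tr p).1 (h3 hj)
    have f3 := (mem_tr p).1 h4
    rw [plane_eq habc e1 e2 e3 hx, plane_eq habc' f1 f2 f3 hx]
  closed := by
    intro h hh l hl x y hxy h1 h2 h3 h4
    rw [Set.Finite.mem_toFinset] at hl hh
    obtain ⟨_, ⟨i, j, hij, rfl⟩, rfl⟩ := hl
    obtain ⟨_, ⟨a, b, c, habc, rfl⟩, rfl⟩ := hh
    rw [mem_tr] at h1 h2 h3 h4
    have hxy' : p x ≠ p y := fun h => hxy (hp h)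
    intro u hu
    rw [mem_tr] at hu ⊢
    rw [line_eq hij h1 h2 hxy'] at hu
    have h5 : affineSpan k ({p x, p y} : Set P) ≤ affineSpan k ({p a, p b, p c} : Set P) := by
      rw [affineSpan_le]
      rintro w (rfl | rfl)
      · exact h3
      · exact h4
    exact h5 hu
  nondeg := by
    intro h hh
    rw [Set.Finite.mem_toFinset] at hh
    obtain ⟨_, ⟨a, b, c, habc, rfl⟩, rfl⟩ := hh
    have hab := ne_of_nc habc
    refine ⟨tr p (affineSpan k ({p a, p b} : Set P)), ?_, ?_, c, ?_, ?_⟩
    · rw [Set.Finite.mem_toFinset]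
      exact ⟨_, ⟨a, b, hab, rfl⟩, rfl⟩
    · intro u hu
      rw [mem_tr] at hu ⊢
      exact affineSpan_mono k (by
        rintro w (rfl | rfl)
        · simp
        · simp) hu
    · rw [mem_tr]
      exact subset_affineSpan k _ (by simp)
    · rw [mem_tr]
      exact (nc_iff hab).2 habc

end


end Pool.Agent.KS6_36.PLP
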