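import Pool.Agent.KS6_36.PLP.Geo

set_option autoImplicit false

/-! Points, lines and planes in affine spaces: the refined inequality and its equality cases. -/

open Finset Pool.Agent.Helper123.PLP

namespace Pool.Agent.KS6_36.PLP

section combinatorial

variable {n : ℕ} (G : Geo (Fin n))

theorem choose_three (n : ℕ) :
    ((n.choose 3 : ℕ) : ℝ) = (n : ℝ) * ((n : ℝ) - 1) * ((n : ℝ) - 2) / 6 := by
  induction n with
  | zero => simp
  | succ n ih =>
    have h2 : ((n.choose 2 : ℕ) : ℝ) = (n : ℝ) * ((n : ℝ) - 1) / 2 := Nat.cast_choose_two ℝ n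
    rw [Nat.choose_succ_succ' n 2]
    push_cast
    rw [ih, h2]
    ring

theorem L_card_gen (h2 : ∀ l ∈ G.L, l.card = 2) : G.L.card = n.choose 2 := by
  have e : G.L = powersetCard 2 (univ : Finset (Fin n)) := by
    ext l
    rw [mem_powersetCard]
    constructor
    · intro hl
      exact ⟨subset_univ _, h2 l hl⟩
    · rintro ⟨-, hl⟩
      obtain ⟨x, y, hxy, rfl⟩ := Finset.card_eq_two.1 hl
      obtain ⟨l, hl, hx, hy⟩ := G.ex_line x y hxy
      have h3 : ({x, y} : Finset (Fin n)) = l := by
        apply Finset.eq_of_subset_of_card_le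
        · intro z hz
          rw [Finset.mem_insert, Finset.mem_singleton] at hz
          rcases hz with rfl | rfl
          · exact hx
          · exact hy
        · rw [h2 l hl, Finset.card_pair hxy]
      rw [h3]
      exact hl
  rw [e, card_powersetCard, card_univ, Fintype.card_fin]

theorem H_card_gen (h2 : ∀ l ∈ G.L, l.card = 2) (h3 : ∀ h ∈ G.H, h.card = 3) :
    G.H.card = n.choose 3 := by
  have e : G.H = powersetCard 3 (univ : Finset (Fin n)) := by
    ext h
    rw [mem_powersetCard]
    constructor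
    · intro hh
      exact ⟨subset_univ _, h3 h hh⟩
    · rintro ⟨-, hh⟩
      obtain ⟨x, y, z, hxy, hxz, hyz, rfl⟩ := Finset.card_eq_three.1 hh
      obtain ⟨l, hl, hx, hy⟩ := G.ex_line x y hxy
      have h4 : ({x, y} : Finset (Fin n)) = l := by
        apply Finset.eq_of_subset_of_card_le
        · intro z hz
          rw [Finset.mem_insert, Finset.mem_singleton] at hz
          rcases hz with rfl | rfl
          · exact hx
          · exact hy
        · rw [h2 l hl, Finset.card_pair hxy]
      have hz : z ∉ l := by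
        rw [← h4]
        simp [hxz.symm, hyz.symm]
      obtain ⟨h, hh', hlh, hzh⟩ := G.ex_plane l hl z hz
      have h5 : ({x, y, z} : Finset (Fin n)) = h := by
        apply Finset.eq_of_subset_of_card_le
        · intro w hw
          rw [Finset.mem_insert, Finset.mem_insert, Finset.mem_singleton] at hw
          rcases hw with rfl | rfl | rfl
          · exact hlh hx
          · exact hlh hy
          · exact hzh
        · rw [h3 h hh', hh]
      rw [h5]
      exact hh'
  rw [e, card_powersetCard, card_univ, Fintype.card_fin]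

theorem mason (hn : 3 ≤ n) :
    3 * (n : ℝ) * ((n : ℝ) - 1) * (G.H.card : ℝ) ≤ 2 * ((n : ℝ) - 2) * (G.L.card : ℝ) ^ 2 ∧
      (3 * (n : ℝ) * ((n : ℝ) - 1) * (G.H.card : ℝ) = 2 * ((n : ℝ) - 2) * (G.L.card : ℝ) ^ 2 ↔
        (∀ l ∈ G.L, l.card = 2) ∧ ∀ h ∈ G.H, h.card = 3) := by
  obtain ⟨h1, h2⟩ := Pool.Agent.Q25.PLP.mason_fin Pool.Agent.Q25.PLP.fin_true
    Pool.Agent.Q25.PLP.m1_true n G hn
  have hn' : (3 : ℝ) ≤ n := by exact_mod_cast hn
  refine ⟨h1, fun heq => ⟨?_, h2 heq⟩, ?_⟩
  · intro l hl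
    have h3 := h2 heq
    have h4 := G.two_le l hl
    by_contra hne
    by_cases hu : ∀ x, x ∈ l
    · have hH : G.H = ∅ := by
        rw [Finset.eq_empty_iff_forall_notMem]
        intro h hh
        obtain ⟨l', hl', hl'h, x, hx, hxl'⟩ := G.nondeg h hh
        obtain ⟨a, b, ha, hb, hab⟩ := Finset.one_lt_card_iff.1 (G.two_le l' hl')
        have := G.uniq_line l hl l' hl' a b hab (hu a) (hu b) ha hb
        exact hxl' (this ▸ hu x)
      rw [hH, Finset.card_empty, Nat.cast_zero, mul_zero] at heq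
      have h5 : 0 < G.L.card := Finset.card_pos.2 ⟨l, hl⟩
      have h6 : (0 : ℝ) < G.L.card := by exact_mod_cast h5
      have h7 : 0 < 2 * ((n : ℝ) - 2) * (G.L.card : ℝ) ^ 2 := by
        have : (0 : ℝ) < (n : ℝ) - 2 := by linarith
        positivity
      linarith
    · push Not at hu
      obtain ⟨x, hx⟩ := hu
      obtain ⟨h, hh, hlh, hxh⟩ := G.ex_plane l hl x hx
      have h5 : (insert x l).card ≤ h.card := by
        apply Finset.card_le_card
        intro z hz
        rcases Finset.mem_insert.1 hz with rfl | hz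
        · exact hxh
        · exact hlh hz
      rw [Finset.card_insert_of_notMem hx, h3 h hh] at h5
      omega
  · rintro ⟨h3, h4⟩
    rw [L_card_gen G h3, H_card_gen G h3 h4, choose_three, Nat.cast_choose_two]
    ring

theorem refined : 3 / 2 * (n : ℝ) * G.H.card + (n : ℝ) * ∑ l ∈ G.L, 1 / (l.card : ℝ) ≤
    (G.L.card : ℝ) ^ 2 := by
  have h := Pool.Agent.Q25.PLP.fin_true (Fin n) G
  rwa [Fintype.card_fin] at h

theorem refined_eq (h2 : ∀ l ∈ G.L, l.card = 2) (h3 : ∀ h ∈ G.H, h.card = 3) :
    3 / 2 * (n : ℝ) * G.H.card + (n : ℝ) * ∑ l ∈ G.L, 1 / (l.card : ℝ) =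
    (G.L.card : ℝ) ^ 2 := by
  have e : ∑ l ∈ G.L, 1 / (l.card : ℝ) = (G.L.card : ℝ) * (1 / 2) := by
    rw [Finset.sum_congr rfl fun l hl => by rw [h2 l hl], Finset.sum_const, nsmul_eq_mul]
    norm_num
  rw [e, L_card_gen G h2, H_card_gen G h2 h3, choose_three, Nat.cast_choose_two]
  ring

end combinatorial

section affine

variable {k V P : Type*} [DivisionRing k] [AddCommGroup V] [Module k V] [AddTorsor V P]

variable (k) in
/-- The lines through at least two points of `S`. -/
def lines (S : Finset P) : Set (AffineSubspace k P) :=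
  {L | ∃ x ∈ S, ∃ y ∈ S, x ≠ y ∧ L = affineSpan k ({x, y} : Set P)}

variable (k) in
/-- The planes through three noncollinear points of `S`. -/
def planes (S : Finset P) : Set (AffineSubspace k P) :=
  {Q | ∃ x ∈ S, ∃ y ∈ S, ∃ z ∈ S, ¬ Collinear k ({x, y, z} : Set P) ∧
    Q = affineSpan k ({x, y, z} : Set P)}

/-- The number of points of `S` on `A`. -/
noncomputable def num (S : Finset P) (A : AffineSubspace k P) : ℕ :=
  {x : P | x ∈ S ∧ x ∈ A}.ncard

variable (k) in
/-- No three points of `S` on a line and no four points of `S` on a plane: every line through two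
points of `S` contains exactly two points of `S`, and every plane through three noncollinear
points of `S` contains exactly three points of `S`. -/
def GenPos (S : Finset P) : Prop :=
  (∀ L ∈ lines k S, num S L = 2) ∧ ∀ Q ∈ planes k S, num S Q = 3

variable (k) in
theorem transfer (S : Finset P) : ∃ (G : Geo (Fin S.card))
    (f : AffineSubspace k P → Finset (Fin S.card)), Set.InjOn f (lines k S) ∧
      Set.InjOn f (planes k S) ∧ (G.L : Set (Finset (Fin S.card))) = f '' lines k S ∧
      (G.H : Set (Finset (Fin S.card))) = f '' planes k S ∧ ∀ A, (f A).card = num S A := by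
  classical
  let e := S.equivFin
  let p : Fin S.card → P := fun i => (e.symm i : P)
  have hp : Function.Injective p := fun i j h => e.symm.injective (Subtype.ext h)
  have hmem : ∀ i, p i ∈ S := fun i => (e.symm i).2
  have hsur : ∀ x ∈ S, ∃ i, p i = x := fun x hx => ⟨e ⟨x, hx⟩, by
    show ((e.symm (e ⟨x, hx⟩) : S) : P) = x
    rw [Equiv.symm_apply_apply]⟩
  have hL : lines k S = LL k p := by
    ext L
    constructor
    · rintro ⟨x, hx, y, hy, hxy, rfl⟩
      obtain ⟨i, rfl⟩ := hsur x hx
      obtain ⟨j, rfl⟩ := hsur y hy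
      exact ⟨i, j, hxy, rfl⟩
    · rintro ⟨i, j, hij, rfl⟩
      exact ⟨p i, hmem i, p j, hmem j, hij, rfl⟩
  have hH : planes k S = HH k p := by
    ext L
    constructor
    · rintro ⟨x, hx, y, hy, z, hz, hxy, rfl⟩
      obtain ⟨i, rfl⟩ := hsur x hx
      obtain ⟨j, rfl⟩ := hsur y hy
      obtain ⟨m, rfl⟩ := hsur z hz
      exact ⟨i, j, m, hxy, rfl⟩
    · rintro ⟨i, j, m, hij, rfl⟩
      exact ⟨p i, hmem i, p j, hmem j, p m, hmem m, hij, rfl⟩
  refine ⟨geo (k := k) p hp, tr p, ?_, ?_, ?_, ?_, ?_⟩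
  · rw [hL]
    exact (tr_inj p).mono (LL_sub p)
  · rw [hH]
    exact (tr_inj p).mono (HH_sub p)
  · rw [hL]
    show ((Set.toFinite (tr p '' LL k p)).toFinset : Set (Finset (Fin S.card))) = _
    rw [Set.Finite.coe_toFinset]
  · rw [hH]
    show ((Set.toFinite (tr p '' HH k p)).toFinset : Set (Finset (Fin S.card))) = _
    rw [Set.Finite.coe_toFinset]
  · intro A
    unfold num
    have h1 : {x : P | x ∈ S ∧ x ∈ A} = p '' (tr p A : Set (Fin S.card)) := by
      ext x
      constructor
      · rintro ⟨hx, hxA⟩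
        obtain ⟨i, rfl⟩ := hsur x hx
        exact ⟨i, by rw [Finset.mem_coe, mem_tr]; exact hxA, rfl⟩
      · rintro ⟨i, hi, rfl⟩
        rw [Finset.mem_coe, mem_tr] at hi
        exact ⟨hmem i, hi⟩
    rw [h1, Set.ncard_image_of_injective _ hp, Set.ncard_coe_finset]

variable (k) in
theorem main (S : Finset P) :
    (lines k S).Finite ∧ (planes k S).Finite ∧
    3 / 2 * (S.card : ℝ) * ((planes k S).ncard : ℝ)
        + (S.card : ℝ) * ∑ᶠ L ∈ lines k S, 1 / (num S L : ℝ) ≤ ((lines k S).ncard : ℝ) ^ 2 ∧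
    (3 ≤ S.card →
      3 * (S.card : ℝ) * ((S.card : ℝ) - 1) * ((planes k S).ncard : ℝ) ≤
        2 * ((S.card : ℝ) - 2) * ((lines k S).ncard : ℝ) ^ 2 ∧
      (3 * (S.card : ℝ) * ((S.card : ℝ) - 1) * ((planes k S).ncard : ℝ) =
        2 * ((S.card : ℝ) - 2) * ((lines k S).ncard : ℝ) ^ 2 ↔ GenPos k S)) ∧
    (GenPos k S → 3 / 2 * (S.card : ℝ) * ((planes k S).ncard : ℝ)
        + (S.card : ℝ) * ∑ᶠ L ∈ lines k S, 1 / (num S L : ℝ) = ((lines k S).ncard : ℝ) ^ 2) := by
  obtain ⟨G, f, f1, f2, f3, f4, f5⟩ := transfer k S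
  have e1 : G.L.card = (lines k S).ncard := by
    rw [← Set.ncard_coe_finset, f3, f1.ncard_image]
  have e2 : G.H.card = (planes k S).ncard := by
    rw [← Set.ncard_coe_finset, f4, f2.ncard_image]
  have e3 : ∑ l ∈ G.L, 1 / (l.card : ℝ) = ∑ᶠ L ∈ lines k S, 1 / (num S L : ℝ) := by
    rw [← finsum_mem_coe_finset, f3, finsum_mem_image f1]
    simp only [f5]
  have e4 : GenPos k S ↔ (∀ l ∈ G.L, l.card = 2) ∧ ∀ h ∈ G.H, h.card = 3 := by
    unfold GenPos
    constructor
    · rintro ⟨a, b⟩
      constructor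
      · intro l hl
        have : l ∈ (G.L : Set (Finset (Fin S.card))) := hl
        rw [f3] at this
        obtain ⟨A, hA, rfl⟩ := this
        rw [f5, a A hA]
      · intro l hl
        have : l ∈ (G.H : Set (Finset (Fin S.card))) := hl
        rw [f4] at this
        obtain ⟨A, hA, rfl⟩ := this
        rw [f5, b A hA]
    · rintro ⟨a, b⟩
      constructor
      · intro A hA
        have : f A ∈ (G.L : Set (Finset (Fin S.card))) := by
          rw [f3]; exact ⟨A, hA, rfl⟩
        rw [← f5, a _ this]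
      · intro A hA
        have : f A ∈ (G.H : Set (Finset (Fin S.card))) := by
          rw [f4]; exact ⟨A, hA, rfl⟩
        rw [← f5, b _ this]
  have g1 : (lines k S).Finite :=
    Set.Finite.of_finite_image (by rw [← f3]; exact Finset.finite_toSet _) f1
  have g2 : (planes k S).Finite :=
    Set.Finite.of_finite_image (by rw [← f4]; exact Finset.finite_toSet _) f2
  refine ⟨g1, g2, ?_, ?_, ?_⟩
  · rw [← e1, ← e2, ← e3]
    exact refined G
  · intro hn
    rw [← e1, ← e2, e4]
    exact mason G hn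
  · intro hg
    rw [← e1, ← e2, ← e3]
    exact refined_eq G (e4.1 hg).1 (e4.1 hg).2

end affine

end Pool.Agent.KS6_36.PLP
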